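import Pool.Agent.Results.MP_19f4d1_co.CyclicOrderFour

set_option autoImplicit false

/-! The structure of nice groups. -/

namespace Pool.Agent.Y806.NG

open Pool.Agent.Results.MP_19f4d1_co.CyclicOrderFour

theorem unique_minimal {G : Type} [Group G] [Fintype G] {p k : ℕ} (hp : p.Prime)
    (hcard : Nat.card G = p ^ k) {z : G} (h : ∀ h : G, orderOf h = p → z ∈ Subgroup.zpowers h) :
    ∀ g : G, g ≠ 1 → ∃ n : ℕ, g ^ n = z := by
  intro g hg
  have h1 : orderOf g ∣ p ^ k := by
    rw [← hcard]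
    exact orderOf_dvd_natCard g
  obtain ⟨j, -, hj⟩ := (Nat.dvd_prime_pow hp).1 h1
  have hj0 : j ≠ 0 := by
    rintro rfl
    rw [pow_zero, orderOf_eq_one_iff] at hj
    exact hg hj
  obtain ⟨i, rfl⟩ := Nat.exists_eq_succ_of_ne_zero hj0
  have h2 : orderOf (g ^ p ^ i) = p := by
    rw [orderOf_pow_of_dvd (pow_ne_zero _ hp.ne_zero) (by rw [hj]; exact pow_dvd_pow p (Nat.le_succ i)),
      hj, pow_succ, Nat.mul_div_cancel_left _ (pow_pos hp.pos i)]
  have h3 := h _ h2
  have h4 : z ∈ Subgroup.zpowers g := by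
    refine (Subgroup.zpowers_le.2 ?_) h3
    exact Subgroup.pow_mem _ (Subgroup.mem_zpowers g) _
  exact mem_powers_iff_mem_zpowers.2 h4

theorem cyclic_case {G : Type} [Group G] [Fintype G] {p k : ℕ} (hp : p.Prime) (hc : IsCyclic G)
    (hcard : Nat.card G = p ^ k) (hk : 2 ≤ k) :
    ∃ c : G, orderOf c = p ^ 2 ∧ (∀ g, c ^ p * g = g * c ^ p) ∧
      ∀ g : G, g ≠ 1 → ∃ n : ℕ, g ^ n = c ^ p := by
  classical
  obtain ⟨c0, h0⟩ := IsCyclic.exists_generator (α := G)
  have ho : orderOf c0 = p ^ k := by rw [← hcard]; exact orderOf_eq_card_of_forall_mem_zpowers h0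
  obtain ⟨i, rfl⟩ := Nat.exists_eq_add_of_le hk
  have hcomm : ∀ x y : G, x * y = y * x := by
    intro x y
    obtain ⟨a, rfl⟩ := Subgroup.mem_zpowers_iff.1 (h0 x)
    obtain ⟨b, rfl⟩ := Subgroup.mem_zpowers_iff.1 (h0 y)
    exact ((Commute.refl c0).zpow_zpow a b)
  have hoc : orderOf (c0 ^ p ^ i) = p ^ 2 := by
    rw [orderOf_pow_of_dvd (pow_ne_zero _ hp.ne_zero) (by rw [ho]; exact pow_dvd_pow p (by omega)),
      ho, pow_add, Nat.mul_div_cancel _ (pow_pos hp.pos i)]
  have hoz : orderOf ((c0 ^ p ^ i) ^ p) = p := by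
    rw [orderOf_pow_of_dvd hp.ne_zero (by rw [hoc]; exact dvd_pow_self p (by norm_num)), hoc,
      pow_two, Nat.mul_div_cancel _ hp.pos]
  refine ⟨c0 ^ p ^ i, hoc, fun g => hcomm _ _, unique_minimal hp hcard fun h hh => ?_⟩
  have h1 := IsCyclic.card_pow_eq_one_le (α := G) (n := p) hp.pos
  have h2 : (Finset.univ.filter fun x => x ∈ Subgroup.zpowers h).card = p := by
    rw [← Fintype.card_subtype]
    have := Nat.card_zpowers h
    rw [hh, Nat.card_eq_fintype_card] at this
    exact this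
  have h3 : (Finset.univ.filter fun x => x ∈ Subgroup.zpowers h) ⊆
      Finset.univ.filter fun a : G => a ^ p = 1 := by
    intro x hx
    rw [Finset.mem_filter] at hx ⊢
    refine ⟨hx.1, ?_⟩
    obtain ⟨n, rfl⟩ := Subgroup.mem_zpowers_iff.1 hx.2
    rw [← zpow_natCast, ← zpow_mul, mul_comm, zpow_mul, zpow_natCast, ← hh, pow_orderOf_eq_one,
      one_zpow]
  have h4 := Finset.eq_of_subset_of_card_le h3 (by rw [h2]; exact h1)
  have h5 : (c0 ^ p ^ i) ^ p ∈ Finset.univ.filter fun a : G => a ^ p = 1 := by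
    rw [Finset.mem_filter]
    refine ⟨Finset.mem_univ _, ?_⟩
    have := pow_orderOf_eq_one ((c0 ^ p ^ i) ^ p)
    rwa [hoz] at this
  rw [← h4, Finset.mem_filter] at h5
  exact h5.2

theorem quaternion_case {G : Type} [Group G] [Fintype G] {m : ℕ}
    (e : G ≃* QuaternionGroup (2 ^ m)) :
    ∃ c : G, orderOf c = 2 ^ 2 ∧ (∀ g, c ^ 2 * g = g * c ^ 2) ∧
      ∀ g : G, g ≠ 1 → ∃ n : ℕ, g ^ n = c ^ 2 := by
  have : NeZero (2 ^ m) := ⟨pow_ne_zero _ (by norm_num)⟩
  have hcard : Nat.card G = 2 ^ (m + 2) := by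
    rw [Nat.card_congr e.toEquiv, Nat.card_eq_fintype_card, QuaternionGroup.card, pow_add]
    ring
  have hec : e ((e.symm (QuaternionGroup.xa 0)) ^ 2) = QuaternionGroup.a ((2 ^ m : ℕ) : ZMod _) := by
    rw [map_pow, MulEquiv.apply_symm_apply, QuaternionGroup.xa_sq]
  have hnn : (((2 ^ m : ℕ) : ZMod (2 * 2 ^ m)) + ((2 ^ m : ℕ) : ZMod (2 * 2 ^ m))) = 0 := by
    rw [← Nat.cast_add, ← two_mul]
    exact ZMod.natCast_self _
  refine ⟨e.symm (QuaternionGroup.xa 0), ?_, fun g => ?_, unique_minimal Nat.prime_two hcard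
    fun h hh => ?_⟩
  · rw [MulEquiv.orderOf_eq, QuaternionGroup.orderOf_xa]
    norm_num
  · apply e.injective
    rw [map_mul, map_mul, hec]
    rcases e g with i | i
    · rw [QuaternionGroup.a_mul_a, QuaternionGroup.a_mul_a, add_comm]
    · rw [QuaternionGroup.a_mul_xa, QuaternionGroup.xa_mul_a]
      congr 1
      rw [sub_eq_iff_eq_add, add_assoc, hnn, add_zero]
  · have h1 : h = (e.symm (QuaternionGroup.xa 0)) ^ 2 := by
      apply e.injective
      rw [hec]
      have h2 : orderOf (e h) = 2 := by rw [MulEquiv.orderOf_eq]; exact hh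
      rcases he : e h with i | i
      · rw [he] at h2
        have h3 := pow_orderOf_eq_one (QuaternionGroup.a i)
        rw [h2, pow_two, QuaternionGroup.a_mul_a, QuaternionGroup.one_def] at h3
        have h4 : i + i = 0 := by injection h3
        have h5 : i ≠ 0 := by
          rintro rfl
          rw [← QuaternionGroup.one_def, orderOf_one] at h2
          norm_num at h2
        congr 1
        have : NeZero (2 * 2 ^ m) := ⟨by positivity⟩
        have h6 : ((i.val + i.val : ℕ) : ZMod (2 * 2 ^ m)) = 0 := by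
          push_cast
          rw [ZMod.natCast_zmod_val]
          exact h4
        have h7 := (ZMod.natCast_eq_zero_iff _ _).1 h6
        have h8 := ZMod.val_lt i
        have h9 : i.val ≠ 0 := fun h => h5 ((ZMod.val_eq_zero i).1 h)
        obtain ⟨t, ht⟩ := h7
        have h10 : t = 1 := by
          have : t ≠ 0 := by
            rintro rfl
            omega
          have : t < 2 := by
            by_contra hc
            push Not at hc
            have := Nat.mul_le_mul_left (2 * 2 ^ m) hc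
            omega
          omega
        rw [h10] at ht
        have h11 : i.val = 2 ^ m := by omega
        have h12 : ((i.val : ℕ) : ZMod (2 * 2 ^ m)) = ((2 ^ m : ℕ) : ZMod (2 * 2 ^ m)) :=
          congrArg (Nat.cast (R := ZMod (2 * 2 ^ m))) h11
        rw [ZMod.natCast_zmod_val] at h12
        exact h12
      · rw [he, QuaternionGroup.orderOf_xa] at h2
        norm_num at h2
    rw [← h1]
    exact Subgroup.mem_zpowers h

/-- A nice group of non-prime order has an element of order `p ^ 2` whose `p`-th power generates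
the smallest nontrivial subgroup, which is central. -/
theorem nice_structure {G : Type} [Group G] [Fintype G] (hG : IsNice G)
    (hn : ¬ (Nat.card G).Prime) : ∃ (p : ℕ) (c : G), 2 ≤ p ∧ orderOf c = p ^ 2 ∧
      (∀ g, c ^ p * g = g * c ^ p) ∧ ∀ g : G, g ≠ 1 → ∃ n : ℕ, g ^ n = c ^ p := by
  rcases hG with ⟨p, k, hp, hk, hc, hcard⟩ | ⟨m, -, ⟨e⟩⟩
  · have hk2 : 2 ≤ k := by
      by_contra h
      have : k = 1 := by omega
      rw [this, pow_one] at hcard
      exact hn (hcard ▸ hp)
    obtain ⟨c, h⟩ := cyclic_case hp hc hcard hk2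
    exact ⟨p, c, hp.two_le, h⟩
  · obtain ⟨c, h⟩ := quaternion_case e
    exact ⟨2, c, le_rfl, h⟩

end Pool.Agent.Y806.NG
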