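import Pool.Agent.Results.MP_19f4d1_co.CyclicOrderFour

set_option autoImplicit false

/-! A map from `E_1 G` to the punctured plane which is equivariant for a given element. -/

namespace Pool.Agent.Y806.NG

open Complex Pool.Agent.Results.MP_19f4d1_co.CyclicOrderFour

variable {G : Type} [Group G]

/-- Exponents relative to coset representatives. -/
theorem exists_exponent (c : G) : ∃ n : G → ℤ, ∀ g, (orderOf c : ℤ) ∣ n (c * g) - (n g + 1) := by
  let r : G → G := fun g => (Quotient.mk (QuotientGroup.rightRel (Subgroup.zpowers c)) g).out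
  have hr : ∀ g, g * (r g)⁻¹ ∈ Subgroup.zpowers c := by
    intro g
    have h := Quotient.exact (Quotient.out_eq
      (Quotient.mk (QuotientGroup.rightRel (Subgroup.zpowers c)) g))
    exact QuotientGroup.rightRel_apply.1 h
  have hrc : ∀ g, r (c * g) = r g := by
    intro g
    have : (Quotient.mk (QuotientGroup.rightRel (Subgroup.zpowers c)) (c * g)) =
        Quotient.mk (QuotientGroup.rightRel (Subgroup.zpowers c)) g := by
      apply Quotient.sound
      refine QuotientGroup.rightRel_apply.2 ?_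
      rw [mul_inv_rev, mul_inv_cancel_left]
      exact inv_mem (Subgroup.mem_zpowers c)
    show (Quotient.mk _ (c * g)).out = _
    rw [this]
  choose n hn using fun g => Subgroup.mem_zpowers_iff.1 (hr g)
  refine ⟨n, fun g => ?_⟩
  rw [orderOf_dvd_iff_zpow_eq_one, add_comm (n g) 1, zpow_sub, zpow_add, hn, hn, hrc, zpow_one]
  group

/-- The primitive root of unity. -/
noncomputable def zt (N : ℕ) : ℂ := exp (2 * Real.pi * I / N)

theorem zt_pow (N : ℕ) (hN : N ≠ 0) : zt N ^ N = 1 := by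
  unfold zt
  rw [← Complex.exp_nat_mul, mul_div_cancel₀ _ (by exact_mod_cast hN), Complex.exp_two_pi_mul_I]

theorem zt_ne (N : ℕ) : zt N ≠ 0 := Complex.exp_ne_zero _

theorem exists_chi (c : G) {N : ℕ} (hN : orderOf c = N) (h0 : N ≠ 0) : ∃ χ : G → ℂ,
    (∀ g, χ (c * g) = zt N * χ g) ∧ ∀ g, χ g ^ N = 1 := by
  obtain ⟨n, hn⟩ := exists_exponent c
  refine ⟨fun g => zt N ^ n g, fun g => ?_, fun g => ?_⟩
  · obtain ⟨k, hk⟩ := hn g
    have e : n (c * g) = N * k + (1 + n g) := by rw [hN] at hk; linarith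
    show zt N ^ n (c * g) = _
    rw [e, zpow_add₀ (zt_ne N), zpow_mul, zpow_natCast, zt_pow N h0, one_zpow, one_mul,
      zpow_add₀ (zt_ne N), zpow_one]
  · show (zt N ^ n g) ^ N = 1
    rw [← zpow_natCast, ← zpow_mul, mul_comm, zpow_mul, zpow_natCast, zt_pow N h0, one_zpow]

variable [Fintype G]

/-- The coordinates of a point of `E_k G`. -/
def cg {k : ℕ} (x : (E G k).Realization) : Fin (k + 1) × G → ℝ := x.val

theorem cg_nonneg {k : ℕ} (x : (E G k).Realization) (p) : 0 ≤ cg x p := x.nonneg p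

theorem sum_cg {k : ℕ} (x : (E G k).Realization) : ∑ p, cg x p = 1 := x.sum_eq

theorem cg_smul {k : ℕ} (g : G) (x : (E G k).Realization) (i : Fin (k + 1)) (a : G) :
    cg (g • x) (i, a) = cg x (i, g⁻¹ * a) := rfl

theorem cg_rel {k : ℕ} (x : (E G k).Realization) (p q : Fin (k + 1) × G) (hp : cg x p ≠ 0)
    (hq : cg x q ≠ 0) (h : p.1 = q.1) : p = q := by
  let _ := joinAction G k
  exact rel_of_ne (G := G) (V := Fin (k + 1) × G) (R := fun p q => p.1 = q.1 → p = q) x p q hp hq h

theorem cg_continuous {k : ℕ} (p : Fin (k + 1) × G) :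
    Continuous fun x : (E G k).Realization => cg x p :=
  (continuous_apply p).comp (continuous_val (E G k))

/-- The row sum. -/
noncomputable def rw' (χ : G → ℂ) {k : ℕ} (x : (E G k).Realization) (i : Fin (k + 1)) : ℂ :=
  ∑ a : G, (cg x (i, a) : ℂ) * χ a

theorem rw'_pow (χ : G → ℂ) {N : ℕ} (h0 : N ≠ 0) (hχ : ∀ g, χ g ^ N = 1) {k : ℕ}
    (x : (E G k).Realization) (i : Fin (k + 1)) :
    rw' χ x i ^ N = (((∑ a : G, cg x (i, a)) ^ N : ℝ) : ℂ) := by
  obtain ⟨a, ha⟩ : ∃ a : G, ∀ b : G, b ≠ a → cg x (i, b) = 0 := by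
    by_cases h : ∃ a : G, cg x (i, a) ≠ 0
    · obtain ⟨a, ha⟩ := h
      refine ⟨a, fun b hb => ?_⟩
      by_contra hc
      have := cg_rel x (i, b) (i, a) hc ha rfl
      exact hb (congrArg Prod.snd this)
    · push Not at h
      exact ⟨1, fun b _ => h b⟩
  have e1 : ∑ b : G, cg x (i, b) = cg x (i, a) :=
    Finset.sum_eq_single a (fun b _ hb => ha b hb) (fun h => absurd (Finset.mem_univ a) h)
  have e2 : rw' χ x i = (cg x (i, a) : ℂ) * χ a :=
    Finset.sum_eq_single a (fun b _ hb => by rw [ha b hb]; simp)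
      (fun h => absurd (Finset.mem_univ a) h)
  rw [e1, e2, mul_pow, hχ]
  push_cast
  ring

theorem rw'_smul (χ : G → ℂ) (c : G) (w : ℂ) (hχ : ∀ g, χ (c * g) = w * χ g) {k : ℕ}
    (x : (E G k).Realization) (i : Fin (k + 1)) : rw' χ (c • x) i = w * rw' χ x i := by
  unfold rw'
  rw [Finset.mul_sum]
  refine (Fintype.sum_equiv (Equiv.mulLeft c) _ _ fun b => ?_).symm
  show w * ((cg x (i, b) : ℂ) * χ b) = (cg (c • x) (i, c * b) : ℂ) * χ (c * b)
  rw [cg_smul, inv_mul_cancel_left, hχ]
  ring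

theorem rw'_continuous (χ : G → ℂ) {k : ℕ} (i : Fin (k + 1)) :
    Continuous fun x : (E G k).Realization => rw' χ x i := by
  unfold rw'
  refine continuous_finsetSum _ fun a _ => ?_
  exact (Complex.continuous_ofReal.comp (cg_continuous (i, a))).mul continuous_const

theorem circle_map (c : G) {N : ℕ} (hN : orderOf c = N) (h0 : N ≠ 0) (k : ℕ) (hk : k < 2) :
    ∃ z : (E G k).Realization → ℂ, Continuous z ∧ (∀ x, z x ≠ 0) ∧
      ∀ x, z (c • x) = zt N * z x := by
  obtain ⟨χ, h1, h2⟩ := exists_chi c hN h0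
  interval_cases k
  · refine ⟨fun x => rw' χ x 0, rw'_continuous χ 0, fun x hx => ?_, fun x => rw'_smul χ c _ h1 x 0⟩
    have hx1 : rw' χ x 0 = 0 := hx
    have h := rw'_pow χ h0 h2 x 0
    have hs := sum_cg x
    rw [Fintype.sum_prod_type] at hs
    have hs' : (∑ a : G, cg x ((0 : Fin 1), a)) = 1 := by
      rw [← hs]
      exact (Fintype.sum_unique (fun i : Fin 1 => ∑ a : G, cg x (i, a))).symm
    rw [hx1, hs', zero_pow h0] at h
    norm_num at h
  · let om : ℂ := - exp (Real.pi * I / N)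
    have hom : (-om) ^ N = -1 := by
      show (- - exp (Real.pi * I / N)) ^ N = -1
      rw [neg_neg, ← Complex.exp_nat_mul, mul_div_cancel₀ _ (by exact_mod_cast h0),
        Complex.exp_pi_mul_I]
    refine ⟨fun x => rw' χ x 0 + om * rw' χ x 1, (rw'_continuous χ 0).add
      (continuous_const.mul (rw'_continuous χ 1)), fun x hx => ?_, fun x => by
        show rw' χ (c • x) 0 + om * rw' χ (c • x) 1 = zt N * (rw' χ x 0 + om * rw' χ x 1)
        rw [rw'_smul χ c _ h1, rw'_smul χ c _ h1]; ring⟩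
    have h3 := rw'_pow χ h0 h2 x 0
    have h4 := rw'_pow χ h0 h2 x 1
    have hx' : rw' χ x 0 = (-om) * rw' χ x 1 := by linear_combination hx
    rw [hx', mul_pow, hom, h4] at h3
    have hs' := sum_cg x
    rw [Fintype.sum_prod_type, Fin.sum_univ_two] at hs'
    have hs0 : 0 ≤ ∑ a : G, cg x ((0 : Fin 2), a) := Finset.sum_nonneg fun a _ => cg_nonneg x _
    have ht0 : 0 ≤ ∑ a : G, cg x ((1 : Fin 2), a) := Finset.sum_nonneg fun a _ => cg_nonneg x _
    set s := ∑ a : G, cg x ((0 : Fin 2), a)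
    set t := ∑ a : G, cg x ((1 : Fin 2), a)
    have h5 : - t ^ N = s ^ N := by
      have : ((- t ^ N : ℝ) : ℂ) = ((s ^ N : ℝ) : ℂ) := by
        rw [← h3]
        push_cast
        ring
      exact_mod_cast this
    have h6 : 0 ≤ t ^ N := pow_nonneg ht0 N
    have h7 : 0 ≤ s ^ N := pow_nonneg hs0 N
    have h8 : s = 0 := (pow_eq_zero_iff h0).1 (by linarith)
    have h9 : t = 0 := (pow_eq_zero_iff h0).1 (by linarith)
    rw [h8, h9] at hs'
    norm_num at hs'

/-- The index is at least two as soon as there is no equivariant map to the punctured plane. -/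
theorem two_le_ind_of (c : G) {N : ℕ} (hN : orderOf c = N) (h0 : N ≠ 0) (X : Type)
    [TopologicalSpace X] [MulAction G X]
    (h : ∀ F : X → ℂ, Continuous F → (∀ x, F x ≠ 0) → (∀ x, F (c • x) = zt N * F x) → False) :
    2 ≤ ind G X := by
  refine le_sInf ?_
  rintro n ⟨k, rfl, f, hf, hfe⟩
  by_contra hlt
  have hk : k < 2 := by
    by_contra hk
    push Not at hk
    exact hlt (by exact_mod_cast hk)
  obtain ⟨z, hz, hz0, hze⟩ := circle_map c hN h0 k hk
  exact h (z ∘ f) (hz.comp hf) (fun x => hz0 _) (fun x => by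
    simp only [Function.comp_apply]
    rw [hfe, hze])

end Pool.Agent.Y806.NG
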