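import Pool.Agent.Y806.NG.Circle

set_option autoImplicit false

/-! The two complexes and the map from their product to `E_1 G`. -/

namespace Pool.Agent.Y806.NG

open Complex Pool.Agent.Results.MP_19f4d1_co.CyclicOrderFour

variable {G : Type} [Group G]

/-- Vertices of the first complex: functions on `G` with values in `{0, 1} × ℤ/p` which are
equivariant under the multiplication by `z`. -/
abbrev V1 (z : G) (p : ℕ) : Type :=
  {f : G → Fin 2 × ZMod p // ∀ g, f (z * g) = ((f g).1, (f g).2 + 1)}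

theorem V1.ext {z : G} {p : ℕ} {f f' : V1 z p} (h : ∀ g, f.1 g = f'.1 g) : f = f' :=
  Subtype.ext (funext h)

/-- The action of `G` by right translations. -/
@[reducible] def act1 (z : G) (p : ℕ) : MulAction G (V1 z p) where
  smul x f := ⟨fun g => f.1 (g * x), fun g => by
    show f.1 (z * g * x) = _
    rw [mul_assoc]
    exact f.2 _⟩
  one_smul f := V1.ext fun g => congrArg f.1 (mul_one g)
  mul_smul x y f := V1.ext fun g => congrArg f.1 (mul_assoc g x y).symm

theorem finite_V1 [Finite G] (z : G) (p : ℕ) [NeZero p] : Finite (V1 z p) :=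
  (inferInstance : Finite {f : G → Fin 2 × ZMod p // ∀ g, f (z * g) = ((f g).1, (f g).2 + 1)})

noncomputable instance [Finite G] (z : G) (p : ℕ) [NeZero p] : Fintype (V1 z p) :=
  have := finite_V1 z p
  Fintype.ofFinite _

/-- The first complex. -/
noncomputable def K1 [Finite G] (z : G) (p : ℕ) [NeZero p] : GComplex G :=
  letI := act1 z p
  cliqueComplex (V1 z p) (fun f f' => ∀ g, (f.1 g).1 = (f'.1 g).1 → f.1 g = f'.1 g)
    (fun _ _ _ => rfl) (fun x _ _ h g => h (g * x))

section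
variable [Finite G] {z : G} {p : ℕ} [NeZero p]

/-- Coordinates. -/
def c1 (x : (K1 z p).Realization) : V1 z p → ℝ := x.val

theorem c1_nonneg (x : (K1 z p).Realization) (f) : 0 ≤ c1 x f := x.nonneg f

theorem sum_c1 (x : (K1 z p).Realization) : ∑ f, c1 x f = 1 := x.sum_eq

theorem c1_rel (x : (K1 z p).Realization) (f f' : V1 z p) (hf : c1 x f ≠ 0)
    (hf' : c1 x f' ≠ 0) : ∀ g, (f.1 g).1 = (f'.1 g).1 → f.1 g = f'.1 g := by
  let _ := act1 z p
  exact rel_of_ne (G := G) (V := V1 z p)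
    (R := fun f f' => ∀ g, (f.1 g).1 = (f'.1 g).1 → f.1 g = f'.1 g) x f f' hf hf'

/-- Right translation. -/
def tr (x : G) (f : V1 z p) : V1 z p :=
  ⟨fun g => f.1 (g * x), fun g => by
    show f.1 (z * g * x) = _
    rw [mul_assoc]
    exact f.2 _⟩

theorem c1_smul (g : G) (x : (K1 z p).Realization) (f : V1 z p) :
    c1 (g • x) f = c1 x (tr g⁻¹ f) := rfl

theorem c1_continuous (f : V1 z p) : Continuous fun x : (K1 z p).Realization => c1 x f :=
  (continuous_apply f).comp (continuous_val (K1 z p))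

theorem ext1 {x y : (K1 z p).Realization} (h : ∀ f, c1 x f = c1 y f) : x = y :=
  GComplex.Realization.ext (funext h)

theorem K1_free (hp : 2 ≤ p) (hU : ∀ g : G, g ≠ 1 → ∃ n : ℕ, g ^ n = z) :
    (K1 z p).IsFree := by
  intro g x h
  by_contra hg
  obtain ⟨n, hn⟩ := hU g hg
  have key : ∀ m : ℕ, g ^ m • x = x := by
    intro m
    induction m with
    | zero => rw [pow_zero, one_smul]
    | succ m ih => rw [pow_succ, mul_smul, h, ih]
  have h2 : z • x = x := by
    have := key n
    simp only [hn] at this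
    exact this
  obtain ⟨f, hf⟩ : ∃ f, c1 x f ≠ 0 := by
    by_contra hc
    push Not at hc
    have := sum_c1 x
    rw [Finset.sum_eq_zero (fun p _ => hc p)] at this
    norm_num at this
  have hq : c1 x (tr z⁻¹ f) ≠ 0 := by
    have e : c1 x f = c1 (z • x) f := by rw [h2]
    rw [c1_smul] at e
    rw [← e]
    exact hf
  have h3 := c1_rel x f (tr z⁻¹ f) hf hq 1
  have h4 : (tr z⁻¹ f).1 1 = f.1 z⁻¹ := congrArg f.1 (one_mul _)
  have h5 := f.2 z⁻¹
  rw [mul_inv_cancel] at h5
  rw [h4, h5] at h3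
  have h6 := congrArg Prod.snd (h3 rfl)
  have h7 : (1 : ZMod p) = 0 := by simpa using h6
  have : Fact (1 < p) := ⟨hp⟩
  exact one_ne_zero h7

end

/-- The second complex: the faces of `E_2 G` with group coordinates in one coset of the subgroup
generated by `z`. -/
def K2 [Fintype G] (z : G) : GComplex G :=
  letI := joinAction G 2
  cliqueComplex (Fin 3 × G) (fun p q => (p.1 = q.1 → p = q) ∧ p.2⁻¹ * q.2 ∈ Subgroup.zpowers z)
    (fun p => ⟨fun _ => rfl, by rw [inv_mul_cancel]; exact one_mem _⟩)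
    (fun g p q h => ⟨fun e => congrArg _ (h.1 e), by
      show (g * p.2)⁻¹ * (g * q.2) ∈ Subgroup.zpowers z
      rw [mul_inv_rev, mul_assoc, inv_mul_cancel_left]
      exact h.2⟩)

section
variable [Fintype G] {z : G}

/-- Coordinates. -/
def c2 (y : (K2 z).Realization) : Fin 3 × G → ℝ := y.val

theorem c2_nonneg (y : (K2 z).Realization) (p) : 0 ≤ c2 y p := y.nonneg p

theorem sum_c2 (y : (K2 z).Realization) : ∑ p, c2 y p = 1 := y.sum_eq

theorem c2_smul (g : G) (y : (K2 z).Realization) (i : Fin 3) (a : G) :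
    c2 (g • y) (i, a) = c2 y (i, g⁻¹ * a) := rfl

theorem c2_rel (y : (K2 z).Realization) (p q : Fin 3 × G) (hp : c2 y p ≠ 0)
    (hq : c2 y q ≠ 0) : (p.1 = q.1 → p = q) ∧ p.2⁻¹ * q.2 ∈ Subgroup.zpowers z := by
  let _ := joinAction G 2
  exact rel_of_ne (G := G) (V := Fin 3 × G)
    (R := fun p q => (p.1 = q.1 → p = q) ∧ p.2⁻¹ * q.2 ∈ Subgroup.zpowers z) y p q hp hq

theorem c2_continuous (p : Fin 3 × G) : Continuous fun y : (K2 z).Realization => c2 y p :=
  (continuous_apply p).comp (continuous_val (K2 z))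

theorem ext2 {x y : (K2 z).Realization} (h : ∀ p, c2 x p = c2 y p) : x = y :=
  GComplex.Realization.ext (funext h)

theorem exists_c2 (y : (K2 z).Realization) : ∃ p, c2 y p ≠ 0 := by
  by_contra hc
  push Not at hc
  have := sum_c2 y
  rw [Finset.sum_eq_zero (fun p _ => hc p)] at this
  norm_num at this

theorem K2_free : (K2 z).IsFree := by
  intro g y h
  obtain ⟨p, hp⟩ := exists_c2 y
  have hq : c2 y (p.1, g⁻¹ * p.2) ≠ 0 := by
    have e : c2 y p = c2 (g • y) (p.1, p.2) := by rw [h]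
    rw [c2_smul] at e
    rw [← e]
    exact hp
  have h1 := (c2_rel y p (p.1, g⁻¹ * p.2) hp hq).1 rfl
  have h2 : p.2 = g⁻¹ * p.2 := congrArg Prod.snd h1
  have h3 : g⁻¹ = 1 := mul_eq_right.1 h2.symm
  exact inv_eq_one.1 h3

end

/-! ### The map from the product -/

section
variable [Fintype G] {z : G} {p : ℕ} [NeZero p]

open Classical in
/-- The indicator of the coset of `y`. -/
noncomputable def wt (y : (K2 z).Realization) (b : G) : ℝ :=
  ∑ q : Fin 3 × G, if b⁻¹ * q.2 ∈ Subgroup.zpowers z then c2 y q else 0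

open Classical in
/-- The marginals of `x`. -/
noncomputable def mg (x : (K1 z p).Realization) (q : Fin 2 × G) : ℝ :=
  ∑ f : V1 z p, if f.1 q.2⁻¹ = (q.1, 0) then c1 x f else 0

theorem wt_nonneg (y : (K2 z).Realization) (b : G) : 0 ≤ wt y b := by
  unfold wt
  refine Finset.sum_nonneg fun q _ => ?_
  split_ifs
  · exact c2_nonneg y q
  · exact le_rfl

theorem mg_nonneg (x : (K1 z p).Realization) (q) : 0 ≤ mg x q := by
  unfold mg
  refine Finset.sum_nonneg fun q _ => ?_
  split_ifs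
  · exact c1_nonneg x _
  · exact le_rfl

/-- The weight is the indicator of a coset. -/
theorem wt_eq (y : (K2 z).Realization) : ∃ a : G, ∀ b, (a⁻¹ * b ∈ Subgroup.zpowers z → wt y b = 1) ∧
    (wt y b ≠ 0 → a⁻¹ * b ∈ Subgroup.zpowers z) := by
  obtain ⟨q0, hq0⟩ := exists_c2 y
  refine ⟨q0.2, fun b => ⟨fun hb => ?_, fun hb => ?_⟩⟩
  · unfold wt
    rw [← sum_c2 y]
    refine Finset.sum_congr rfl fun q _ => ?_
    split_ifs with h
    · rfl
    · by_contra hc
      have h1 := (c2_rel y q0 q hq0 (fun h => hc h.symm)).2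
      apply h
      have : b⁻¹ * q.2 = (q0.2⁻¹ * b)⁻¹ * (q0.2⁻¹ * q.2) := by group
      rw [this]
      exact mul_mem (inv_mem hb) h1
  · unfold wt at hb
    obtain ⟨q, -, hq⟩ := Finset.exists_ne_zero_of_sum_ne_zero hb
    split_ifs at hq with h
    · have h1 := (c2_rel y q0 q hq0 hq).2
      have : q0.2⁻¹ * b = (q0.2⁻¹ * q.2) * (b⁻¹ * q.2)⁻¹ := by group
      rw [this]
      exact mul_mem h1 (inv_mem h)
    · exact absurd rfl hq

theorem V1_zpow (f : V1 z p) (n : ℤ) (g : G) : f.1 (z ^ n * g) = ((f.1 g).1, (f.1 g).2 + n) := by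
  induction n using Int.induction_on with
  | zero => simp
  | succ n ih =>
    have h := f.2 (z ^ (n : ℤ) * g)
    rw [← mul_assoc, ← zpow_one_add, add_comm 1 (n : ℤ), ih] at h
    rw [h]
    push_cast
    rw [add_assoc]
  | pred n ih =>
    have h := f.2 (z ^ (-(n : ℤ) - 1) * g)
    rw [← mul_assoc, ← zpow_one_add, add_sub_cancel, ih] at h
    have h1 := congrArg Prod.fst h
    have h2 := congrArg Prod.snd h
    simp only at h1 h2
    refine Prod.ext h1.symm ?_
    show _ = (f.1 g).2 + ((-(n : ℤ) - 1 : ℤ) : ZMod p)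
    rw [eq_sub_of_add_eq h2.symm]
    push_cast
    ring

theorem fmap_sum (hz : orderOf z = p) (x : (K1 z p).Realization) (y : (K2 z).Realization) :
    ∑ q : Fin 2 × G, wt y q.2 * mg x q = 1 := by
  classical
  obtain ⟨a, ha⟩ := wt_eq y
  unfold mg
  simp only [Finset.mul_sum]
  rw [Finset.sum_comm, ← sum_c1 x]
  refine Finset.sum_congr rfl fun f _ => ?_
  set j : ℤ := ((((f.1 a⁻¹).2).val : ℕ) : ℤ) with hj
  have hjc : ((j : ℤ) : ZMod p) = (f.1 a⁻¹).2 := by
    rw [hj]
    simp
  rw [Finset.sum_eq_single ((f.1 a⁻¹).1, a * z ^ j)]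
  · have h1 : f.1 (a * z ^ j)⁻¹ = ((f.1 a⁻¹).1, 0) := by
      rw [mul_inv_rev, ← zpow_neg, V1_zpow]
      push_cast
      rw [hjc, add_neg_cancel]
    have h2 : wt y (a * z ^ j) = 1 := by
      refine (ha _).1 ?_
      rw [inv_mul_cancel_left]
      exact Subgroup.zpow_mem_zpowers z j
    show wt y (a * z ^ j) * (if f.1 (a * z ^ j)⁻¹ = ((f.1 a⁻¹).1, 0) then c1 x f else 0) = _
    rw [if_pos h1, h2, one_mul]
  · rintro ⟨i, b⟩ - hne
    by_contra hc
    apply hne
    have h1 : wt y b ≠ 0 := left_ne_zero_of_mul hc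
    have h2 : f.1 b⁻¹ = (i, 0) := by
      by_contra h
      apply right_ne_zero_of_mul hc
      exact if_neg h
    obtain ⟨n, hn⟩ := Subgroup.mem_zpowers_iff.1 ((ha b).2 h1)
    have hb : b = a * z ^ n := by rw [hn, mul_inv_cancel_left]
    rw [hb, mul_inv_rev, ← zpow_neg, V1_zpow] at h2
    have h3 := congrArg Prod.fst h2
    have h4 := congrArg Prod.snd h2
    simp only at h3 h4
    push_cast at h4
    have h5 : ((n : ℤ) : ZMod p) = ((j : ℤ) : ZMod p) := by
      rw [hjc]
      exact (add_neg_eq_zero.1 h4).symm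
    have h6 : z ^ n = z ^ j := by
      have := (ZMod.intCast_eq_intCast_iff_dvd_sub _ _ _).1 h5
      rw [← hz, orderOf_dvd_iff_zpow_eq_one, zpow_sub] at this
      exact (mul_inv_eq_one.1 this).symm
    rw [hb, h6, ← h3]
  · intro h
    exact absurd (Finset.mem_univ _) h

theorem fmap_rel (hz : orderOf z = p) (x : (K1 z p).Realization) (y : (K2 z).Realization)
    (q r : Fin 2 × G) (hq : wt y q.2 * mg x q ≠ 0) (hr : wt y r.2 * mg x r ≠ 0)
    (h : q.1 = r.1) : q = r := by
  classical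
  obtain ⟨a, ha⟩ := wt_eq y
  have q1 := (ha _).2 (left_ne_zero_of_mul hq)
  have r1 := (ha _).2 (left_ne_zero_of_mul hr)
  obtain ⟨f, -, hf⟩ := Finset.exists_ne_zero_of_sum_ne_zero (right_ne_zero_of_mul hq)
  obtain ⟨f', -, hf'⟩ := Finset.exists_ne_zero_of_sum_ne_zero (right_ne_zero_of_mul hr)
  split_ifs at hf with q2
  swap
  · exact absurd rfl hf
  split_ifs at hf' with r2
  swap
  · exact absurd rfl hf'
  have h1 : q.2⁻¹ * r.2 ∈ Subgroup.zpowers z := by
    have : q.2⁻¹ * r.2 = (a⁻¹ * q.2)⁻¹ * (a⁻¹ * r.2) := by group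
    rw [this]
    exact mul_mem (inv_mem q1) r1
  obtain ⟨n, hn⟩ := Subgroup.mem_zpowers_iff.1 h1
  have hr2 : r.2 = q.2 * z ^ n := by rw [hn, mul_inv_cancel_left]
  rw [hr2, mul_inv_rev, ← zpow_neg, V1_zpow] at r2
  have h3 := congrArg Prod.fst r2
  have h4 := congrArg Prod.snd r2
  simp only at h3 h4
  push_cast at h4
  have h5 := c1_rel x f f' hf hf' q.2⁻¹ (by rw [q2, h3]; exact h)
  rw [← h5, q2, zero_add, neg_eq_zero] at h4
  have h6 : z ^ n = 1 := by
    rw [← orderOf_dvd_iff_zpow_eq_one, hz]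
    exact (ZMod.intCast_zmod_eq_zero_iff_dvd _ _).1 h4
  refine Prod.ext h ?_
  rw [hr2, h6, mul_one]

/-- The map `K1 × K2 → E_1 G`. -/
noncomputable def fmap (hz : orderOf z = p) (w : (K1 z p).Realization × (K2 z).Realization) :
    (E G 1).Realization :=
  letI := joinAction G 1
  mkPoint (G := G) (V := Fin 2 × G) (fun q => wt w.2 q.2 * mg w.1 q)
    (fun _ => mul_nonneg (wt_nonneg _ _) (mg_nonneg _ _)) (fmap_sum hz _ _) (fmap_rel hz _ _)

theorem cg_fmap (hz : orderOf z = p) (w : (K1 z p).Realization × (K2 z).Realization)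
    (q : Fin 2 × G) : cg (fmap hz w) q = wt w.2 q.2 * mg w.1 q := rfl

theorem ext0 {k : ℕ} {x y : (E G k).Realization} (h : ∀ p, cg x p = cg y p) : x = y :=
  GComplex.Realization.ext (funext h)

theorem fmap_continuous (hz : orderOf z = p) : Continuous (fmap (z := z) (p := p) hz) := by
  classical
  refine (continuous_iff_val (E G 1) _).2 fun v => ?_
  have h : ∀ q : Fin 2 × G, Continuous fun w : (K1 z p).Realization × (K2 z).Realization =>
      wt w.2 q.2 * mg w.1 q := by
    intro q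
    refine Continuous.mul ?_ ?_
    · unfold wt
      refine continuous_finsetSum _ fun q _ => ?_
      split_ifs
      · exact (c2_continuous q).comp continuous_snd
      · exact continuous_const
    · unfold mg
      refine continuous_finsetSum _ fun q _ => ?_
      split_ifs
      · exact (c1_continuous _).comp continuous_fst
      · exact continuous_const
  exact h v

theorem wt_smul (g : G) (y : (K2 z).Realization) (b : G) : wt (g • y) b = wt y (g⁻¹ * b) := by
  classical
  unfold wt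
  refine (Fintype.sum_equiv ((Equiv.refl (Fin 3)).prodCongr (Equiv.mulLeft g)) _ _ ?_).symm
  rintro ⟨j, c⟩
  have h1 : c2 (g • y) (((Equiv.refl (Fin 3)).prodCongr (Equiv.mulLeft g)) (j, c)) =
      c2 y (j, c) := by
    show c2 (g • y) (j, g * c) = _
    rw [c2_smul, inv_mul_cancel_left]
  rw [h1]
  have h2 : (g⁻¹ * b)⁻¹ * c = b⁻¹ * (g * c) := by group
  show (if (g⁻¹ * b)⁻¹ * c ∈ Subgroup.zpowers z then c2 y (j, c) else 0) =
    if b⁻¹ * (g * c) ∈ Subgroup.zpowers z then c2 y (j, c) else 0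
  rw [h2]

/-- Right translation as an equivalence. -/
def trE (g : G) : V1 z p ≃ V1 z p where
  toFun := tr g
  invFun := tr g⁻¹
  left_inv f := V1.ext fun a => by
    show f.1 (a * g⁻¹ * g) = f.1 a
    rw [inv_mul_cancel_right]
  right_inv f := V1.ext fun a => by
    show f.1 (a * g * g⁻¹) = f.1 a
    rw [mul_inv_cancel_right]

theorem mg_smul (g : G) (x : (K1 z p).Realization) (i : Fin 2) (b : G) :
    mg (g • x) (i, b) = mg x (i, g⁻¹ * b) := by
  classical
  unfold mg
  refine (Fintype.sum_equiv (trE g) _ _ fun f => ?_).symm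
  have h1 : c1 (g • x) (trE g f) = c1 x f := by
    rw [c1_smul]
    congr 1
    exact (trE g).left_inv f
  rw [h1]
  show (if f.1 (g⁻¹ * b)⁻¹ = (i, 0) then c1 x f else 0) =
    if f.1 (b⁻¹ * g) = (i, 0) then c1 x f else 0
  rw [mul_inv_rev, inv_inv]

theorem fmap_smul (hz : orderOf z = p) (g : G)
    (w : (K1 z p).Realization × (K2 z).Realization) : fmap hz (g • w) = g • fmap hz w := by
  apply ext0
  rintro ⟨i, a⟩
  rw [cg_smul, cg_fmap, cg_fmap]
  show wt (g • w.2) a * mg (g • w.1) (i, a) = wt w.2 (g⁻¹ * a) * mg w.1 (i, g⁻¹ * a)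
  rw [wt_smul, mg_smul]

theorem prod_index (hz : orderOf z = p) :
    ind G ((K1 z p).Realization × (K2 z).Realization) ≤ 1 :=
  sInf_le ⟨1, rfl, fmap hz, fmap_continuous hz, fmap_smul hz⟩

end

end Pool.Agent.Y806.NG
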