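import Pool.Agent.Y806.NG.Round

set_option autoImplicit false

/-! The first complex has index at least two. -/

namespace Pool.Agent.Y806.NG

open Complex Pool.Agent.Results.MP_19f4d1_co.CyclicOrderFour MeasureTheory

section
variable {G : Type} [Group G] [Finite G] {z : G} {p : ℕ} [NeZero p]

/-- Admissible families of real numbers. -/
def Adm (z : G) (p : ℕ) (u : G → ℝ) : Prop := ∀ g, ∃ k : ℤ, u (z * g) = u g + 1 + p * k

omit [Finite G] in
theorem R_shift (u : G → ℝ) (U : ℝ) {g g' : G} {m : ℤ} (h : u g' = u g + m) :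
    R u U g' = R u U g + 2 * m := by
  unfold R
  rw [h]
  have : 2 * (u g + m) + U = 2 * u g + U + ((2 * m : ℤ) : ℝ) := by push_cast; ring
  rw [this, Int.floor_add_intCast]

/-- The random vertex. -/
noncomputable def T1 (u : G → ℝ) (hu : Adm z p u) (U : ℝ) : V1 z p :=
  ⟨fun g => vtx p (R u U g), fun g => by
    obtain ⟨k, hk⟩ := hu g
    have h1 : u (z * g) = u g + ((1 + p * k : ℤ) : ℝ) := by rw [hk]; push_cast; ring
    show vtx p (R u U (z * g)) = _
    rw [R_shift u U h1, vtx_add]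
    push_cast
    rw [CharP.cast_eq_zero, zero_mul, add_zero]⟩

theorem setT1 (u : G → ℝ) (hu : Adm z p u) (f : V1 z p) :
    {U | T1 u hu U = f} = {U | R u U ∈ {n : G → ℤ | ∀ g, vtx p (n g) = f.1 g}} := by
  ext U
  constructor
  · rintro (rfl : T1 u hu U = f)
    exact fun g => rfl
  · intro h
    exact V1.ext h

theorem sum_T1 (u : G → ℝ) (hu : Adm z p u) : ∑ f, mu.real {U | T1 u hu U = f} = 1 := by
  classical
  have h1 := sum_measureReal_preimage_singleton (μ := mu) (f := T1 u hu) Finset.univ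
    (fun f _ => by
      have := measurableSet_R u {n : G → ℤ | ∀ g, vtx p (n g) = f.1 g}
      rw [← setT1 u hu f] at this
      exact this)
  have h2 : (T1 u hu) ⁻¹' ((Finset.univ : Finset (V1 z p)) : Set (V1 z p)) = Set.univ := by
    simp
  rw [h2, probReal_univ] at h1
  exact h1

/-- The point of the first complex given by an admissible family. -/
noncomputable def P1 (u : G → ℝ) (hu : Adm z p u) : (K1 z p).Realization :=
  letI := act1 z p
  mkPoint (G := G) (V := V1 z p) (fun f => mu.real {U | T1 u hu U = f})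
    (fun _ => measureReal_nonneg) (sum_T1 u hu)
    (fun f f' h h' g hg => by
      obtain ⟨U, hU, hf⟩ := exists_of_wgt h
      obtain ⟨U', hU', hf'⟩ := exists_of_wgt h'
      have e : T1 u hu U = f := hf
      have e' : T1 u hu U' = f' := hf'
      rw [← e, ← e'] at hg ⊢
      have := vtx_adj p (R_close u hU hU' g) hg
      show vtx p (R u U g) = vtx p (R u U' g)
      rw [this])

theorem c1_P1 (u : G → ℝ) (hu : Adm z p u) (f : V1 z p) :
    c1 (P1 u hu) f = mu.real {U | T1 u hu U = f} := rfl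

theorem P1_continuous {W : Type} [TopologicalSpace W] [FirstCountableTopology W]
    (u : W → G → ℝ) (hu : ∀ w, Adm z p (u w)) (hc : ∀ g, Continuous fun w => u w g) :
    Continuous fun w => P1 (u w) (hu w) := by
  refine (continuous_iff_val (K1 z p) _).2 fun v => ?_
  have h : ∀ f : V1 z p, Continuous fun w => mu.real {U | T1 (u w) (hu w) U = f} := by
    intro f
    simp only [setT1]
    exact wgt_continuous u hc _
  exact h v

theorem P1_congr {u u' : G → ℝ} (hu : Adm z p u) (hu' : Adm z p u')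
    (h : ∀ g, ∃ k : ℤ, u' g = u g + p * k) : P1 u' hu' = P1 u hu := by
  apply ext1
  intro f
  rw [c1_P1, c1_P1]
  congr 1
  ext U
  have : T1 u' hu' U = T1 u hu U := by
    apply V1.ext
    intro g
    obtain ⟨k, hk⟩ := h g
    show vtx p (R u' U g) = vtx p (R u U g)
    have e : R u' U g = R u U g + 2 * (p * k) := by
      unfold R
      rw [hk]
      have : 2 * (u g + p * k) + U = 2 * u g + U + ((2 * (p * k) : ℤ) : ℝ) := by push_cast; ring
      rw [this, Int.floor_add_intCast]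
    rw [e, vtx_add]
    push_cast
    rw [CharP.cast_eq_zero, zero_mul, add_zero]
  show T1 u' hu' U = f ↔ T1 u hu U = f
  rw [this]

theorem P1_smul (c : G) {u : G → ℝ} (hu : Adm z p u) (hu' : Adm z p fun g => u (g * c)) :
    P1 (fun g => u (g * c)) hu' = c • P1 u hu := by
  apply ext1
  intro f
  rw [c1_smul, c1_P1, c1_P1]
  congr 1
  ext U
  show T1 (fun g => u (g * c)) hu' U = f ↔ T1 u hu U = tr c⁻¹ f
  constructor
  · intro h
    rw [← h]
    apply V1.ext
    intro g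
    show vtx p ⌊2 * u g + U⌋ = vtx p ⌊2 * u (g * c⁻¹ * c) + U⌋
    rw [inv_mul_cancel_right]
  · intro h
    apply V1.ext
    intro g
    have h1 : (T1 u hu U).1 (g * c) = (tr c⁻¹ f).1 (g * c) := by rw [h]
    have h2 : (tr c⁻¹ f).1 (g * c) = f.1 (g * c * c⁻¹) := rfl
    rw [h2, mul_inv_cancel_right] at h1
    exact h1

end

/-! ### Iterated translations of continuous logarithms -/

theorem iterate_shift {Φ : ℝ → ℂ} {d : ℝ} {w : ℂ} (h : ∀ s, Φ (s + d) = Φ s + w) (n : ℕ) (s : ℝ) :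
    Φ (s + n * d) = Φ s + n * w := by
  induction n with
  | zero => simp
  | succ n ih =>
    have : s + ((n + 1 : ℕ) : ℝ) * d = s + n * d + d := by push_cast; ring
    rw [this, h, ih]
    push_cast
    ring

section
variable {G : Type} [Group G] [Fintype G] {p : ℕ} [NeZero p]

/-- Exponents for the multiplication from the right. -/
theorem exists_exponent' (c : G) : ∃ J : G → ℤ, ∀ g (m : ℕ),
    (orderOf c : ℤ) ∣ J (g * c ^ m) - (J g + m) := by
  obtain ⟨n, hn⟩ := exists_exponent c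
  have h1 : ∀ g, (orderOf c : ℤ) ∣ -n (g * c)⁻¹ - (-n g⁻¹ + 1) := by
    intro g
    have := hn (c⁻¹ * g⁻¹)
    rw [mul_inv_cancel_left] at this
    rw [mul_inv_rev]
    have e : -n (c⁻¹ * g⁻¹) - (-n g⁻¹ + 1) = n g⁻¹ - (n (c⁻¹ * g⁻¹) + 1) := by ring
    rw [e]
    exact this
  refine ⟨fun g => -n g⁻¹, fun g m => ?_⟩
  induction m with
  | zero => simp
  | succ m ih =>
    have h2 := h1 (g * c ^ m)
    have h3 := dvd_add ih h2
    have e : g * c ^ (m + 1) = g * c ^ m * c := by rw [pow_succ, mul_assoc]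
    show (orderOf c : ℤ) ∣ -n (g * c ^ (m + 1))⁻¹ - (-n g⁻¹ + ((m + 1 : ℕ) : ℤ))
    rw [e]
    have e5 : -n (g * c ^ m * c)⁻¹ - (-n g⁻¹ + ((m + 1 : ℕ) : ℤ)) =
        (-n (g * c ^ m)⁻¹ - (-n g⁻¹ + (m : ℤ))) +
          (-n (g * c ^ m * c)⁻¹ - (-n (g * c ^ m)⁻¹ + 1)) := by
      push_cast
      ring
    rw [e5]
    exact h3

theorem K1_index (hp : 2 ≤ p) {c : G} (hc : orderOf c = p ^ 2) (hz : ∀ g, c ^ p * g = g * c ^ p) :
    2 ≤ ind G (K1 (c ^ p) p).Realization := by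
  have hp0 : (p : ℝ) ≠ 0 := by
    have : p ≠ 0 := by omega
    exact_mod_cast this
  have hN0 : p ^ 2 ≠ 0 := pow_ne_zero _ (by omega)
  obtain ⟨J, hJ⟩ := exists_exponent' c
  rw [hc] at hJ
  push_cast at hJ
  apply two_le_ind_of c hc hN0
  intro F hF hF0 hFe
  -- the annulus
  let u : ℝ × ℝ → G → ℝ := fun w g => (w.1 + J g) / p + w.2 * ((J g % p : ℤ) : ℝ)
  have hmod : ∀ g (m : ℕ), (J (g * c ^ m) - (J g + m)) % p = 0 := by
    intro g m
    have h1 := hJ g m
    have h2 : (p : ℤ) ∣ (p : ℤ) ^ 2 := dvd_pow_self _ (by norm_num)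
    exact Int.emod_eq_zero_of_dvd (h2.trans h1)
  have hu : ∀ w, Adm (c ^ p) p (u w) := by
    intro w g
    obtain ⟨k, hk⟩ := hJ g p
    refine ⟨k, ?_⟩
    show (w.1 + J (c ^ p * g)) / p + w.2 * ((J (c ^ p * g) % p : ℤ) : ℝ) =
      (w.1 + J g) / p + w.2 * ((J g % p : ℤ) : ℝ) + 1 + p * k
    rw [hz]
    have e1 : J (g * c ^ p) = J g + p * (1 + p * k) := by linear_combination hk
    have e2 : J (g * c ^ p) % p = J g % p := by rw [e1, Int.add_mul_emod_self_left]
    rw [e2, e1]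
    push_cast
    field_simp
    ring
  have huc : ∀ g, Continuous fun w => u w g := by
    intro g
    show Continuous fun w : ℝ × ℝ => (w.1 + J g) / p + w.2 * ((J g % p : ℤ) : ℝ)
    fun_prop
  let Q : ℝ × ℝ → (K1 (c ^ p) p).Realization := fun w => P1 (u w) (hu w)
  have hQ : Continuous Q := P1_continuous u hu huc
  have hadm : ∀ w, Adm (c ^ p) p fun g => u w (g * c) := by
    intro w g
    obtain ⟨k, hk⟩ := hu w (g * c)
    refine ⟨k, ?_⟩
    show u w (c ^ p * g * c) = _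
    rw [mul_assoc]
    exact hk
  have hJ1 : ∀ g, ∃ k : ℤ, J (g * c) = J g + 1 + p ^ 2 * k := by
    intro g
    obtain ⟨k, hk⟩ := hJ g 1
    rw [pow_one] at hk
    exact ⟨k, by push_cast at hk; linear_combination hk⟩
  -- the two ends
  have Q0 : ∀ s : ℝ, Q (s + 1, 0) = c • Q (s, 0) := by
    intro s
    show P1 (u (s + 1, 0)) _ = c • P1 (u (s, 0)) (hu (s, 0))
    rw [← P1_smul c (hu (s, 0)) (hadm (s, 0))]
    refine P1_congr _ _ fun g => ?_
    obtain ⟨k, hk⟩ := hJ1 g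
    refine ⟨-k, ?_⟩
    show (s + 1 + J g) / p + 0 * ((J g % p : ℤ) : ℝ) =
      (s + J (g * c)) / p + 0 * ((J (g * c) % p : ℤ) : ℝ) + p * ((-k : ℤ) : ℝ)
    rw [hk]
    push_cast
    field_simp
    ring
  have Q1 : ∀ s : ℝ, Q (s + (1 + p), 1) = c • Q (s, 1) := by
    intro s
    show P1 (u (s + (1 + p), 1)) _ = c • P1 (u (s, 1)) (hu (s, 1))
    rw [← P1_smul c (hu (s, 1)) (hadm (s, 1))]
    refine P1_congr _ _ fun g => ?_
    obtain ⟨k, hk⟩ := hJ1 g
    have d1 := Int.emod_add_mul_ediv (J g) p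
    have d2 := Int.emod_add_mul_ediv (J (g * c)) p
    refine ⟨-k - J g / p + J (g * c) / p - p * k, ?_⟩
    show (s + (1 + p) + J g) / p + 1 * ((J g % p : ℤ) : ℝ) =
      (s + J (g * c)) / p + 1 * ((J (g * c) % p : ℤ) : ℝ) +
        p * ((-k - J g / p + J (g * c) / p - p * k : ℤ) : ℝ)
    have f1 : ((J g % p : ℤ) : ℝ) = J g - p * ((J g / p : ℤ) : ℝ) := by
      have : ((J g % p + p * (J g / p) : ℤ) : ℝ) = J g := by rw [d1]
      push_cast at this ⊢
      linarith
    have f2 : ((J (g * c) % p : ℤ) : ℝ) = J (g * c) - p * ((J (g * c) / p : ℤ) : ℝ) := by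
      have : ((J (g * c) % p + p * (J (g * c) / p) : ℤ) : ℝ) = J (g * c) := by rw [d2]
      push_cast at this ⊢
      linarith
    have f3 : ((J (g * c) : ℤ) : ℝ) = J g + 1 + p ^ 2 * k := by
      rw [hk]
      push_cast
      ring
    rw [f1, f2, f3]
    push_cast
    field_simp
    ring
  have Qp : ∀ w : ℝ × ℝ, Q (w.1 + p ^ 2, w.2) = Q w := by
    intro w
    refine P1_congr _ _ fun g => ⟨1, ?_⟩
    show (w.1 + p ^ 2 + J g) / p + w.2 * ((J g % p : ℤ) : ℝ) =
      (w.1 + J g) / p + w.2 * ((J g % p : ℤ) : ℝ) + p * ((1 : ℤ) : ℝ)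
    push_cast
    field_simp
    ring
  -- the logarithm
  obtain ⟨Φ, hΦ, hexp⟩ := exists_log (fun w : ℝ × ℝ => F (Q w)) (hF.comp hQ) (fun w => hF0 _)
  have hL : exp (2 * Real.pi * I / ((p ^ 2 : ℕ) : ℂ)) = zt (p ^ 2) := rfl
  obtain ⟨a, ha⟩ := const_diff (fun s : ℝ => Φ (s + 1, 0)) (fun s : ℝ => Φ (s, 0))
    (by fun_prop) (by fun_prop) (2 * Real.pi * I / ((p ^ 2 : ℕ) : ℂ)) (fun s => by
      show exp (Φ (s + 1, 0)) = exp _ * exp (Φ (s, 0))
      rw [hexp, hexp, hL]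
      show F (Q (s + 1, 0)) = zt (p ^ 2) * F (Q (s, 0))
      rw [Q0, hFe])
  obtain ⟨b, hb⟩ := const_diff (fun s : ℝ => Φ (s + (1 + p), 1)) (fun s : ℝ => Φ (s, 1))
    (by fun_prop) (by fun_prop) (2 * Real.pi * I / ((p ^ 2 : ℕ) : ℂ)) (fun s => by
      show exp (Φ (s + (1 + p), 1)) = exp _ * exp (Φ (s, 1))
      rw [hexp, hexp, hL]
      show F (Q (s + (1 + p), 1)) = zt (p ^ 2) * F (Q (s, 1))
      rw [Q1, hFe])
  obtain ⟨M, hM⟩ := const_diff (fun w : ℝ × ℝ => Φ (w.1 + p ^ 2, w.2)) Φ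
    (by fun_prop) hΦ 0 (fun w => by
      show exp (Φ (w.1 + p ^ 2, w.2)) = exp 0 * exp (Φ w)
      rw [hexp, hexp, exp_zero, one_mul]
      show F (Q (w.1 + p ^ 2, w.2)) = F (Q w)
      rw [Qp])
  have i1 := iterate_shift (Φ := fun s : ℝ => Φ (s, 0)) (d := 1)
    (fun s => (ha s).trans (add_assoc _ _ _)) (p ^ 2) 0
  have i2 := iterate_shift (Φ := fun s : ℝ => Φ (s, 1)) (d := 1 + p)
    (fun s => (hb s).trans (add_assoc _ _ _)) (p ^ 2) 0
  have i3 := iterate_shift (Φ := fun s : ℝ => Φ (s, 1)) (d := (p : ℝ) ^ 2)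
    (w := M * (2 * Real.pi * I)) (fun s => by
    have := hM (s, 1)
    rw [add_zero] at this
    exact this) (1 + p) 0
  have i4 := hM (0, 0)
  simp only [add_zero, zero_add, mul_one] at i1 i2 i3 i4
  have t1 : (((p ^ 2 : ℕ) : ℝ) * (1 + (p : ℝ))) = ((1 + p : ℕ) : ℝ) * (p : ℝ) ^ 2 := by
    push_cast
    ring
  rw [t1, i3] at i2
  have t2 : ((p ^ 2 : ℕ) : ℝ) = (p : ℝ) ^ 2 := by push_cast; ring
  rw [t2, i4] at i1
  have hpc : (((p ^ 2 : ℕ) : ℂ)) ≠ 0 := by exact_mod_cast hN0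
  have hpi := Complex.two_pi_I_ne_zero
  have j1 : (M : ℂ) = 1 + ((p ^ 2 : ℕ) : ℂ) * a := by
    have e1 : (M : ℂ) * (2 * Real.pi * I) = (1 + ((p ^ 2 : ℕ) : ℂ) * a) * (2 * Real.pi * I) := by
      have := add_left_cancel i1
      rw [this]
      field_simp
    exact mul_right_cancel₀ hpi e1
  have j2 : ((1 + p : ℕ) : ℂ) * M = 1 + ((p ^ 2 : ℕ) : ℂ) * b := by
    have e1 : (((1 + p : ℕ) : ℂ) * M) * (2 * Real.pi * I) =
        (1 + ((p ^ 2 : ℕ) : ℂ) * b) * (2 * Real.pi * I) := by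
      have := add_left_cancel i2
      rw [mul_assoc, this]
      field_simp
    exact mul_right_cancel₀ hpi e1
  have k1 : M = 1 + (p : ℤ) ^ 2 * a := by
    have : (M : ℂ) = ((1 + (p : ℤ) ^ 2 * a : ℤ) : ℂ) := by rw [j1]; push_cast; ring
    exact_mod_cast this
  have k2 : (1 + (p : ℤ)) * M = 1 + (p : ℤ) ^ 2 * b := by
    have : (((1 + (p : ℤ)) * M : ℤ) : ℂ) = ((1 + (p : ℤ) ^ 2 * b : ℤ) : ℂ) := by
      push_cast
      push_cast at j2
      rw [j2]
    exact_mod_cast this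
  rw [k1] at k2
  have k3 : (p : ℤ) * 1 = p * (p * (b - a - p * a)) := by linear_combination k2
  have hpz : (p : ℤ) ≠ 0 := by
    have : p ≠ 0 := by omega
    exact_mod_cast this
  have k4 := mul_left_cancel₀ hpz k3
  have k5 : (p : ℤ) ∣ 1 := ⟨_, k4⟩
  have k6 := Int.le_of_dvd one_pos k5
  omega

end

end Pool.Agent.Y806.NG
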