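import Pool.Agent.Y806.NG.LowOne

set_option autoImplicit false

/-! The second complex has index at least two. -/

namespace Pool.Agent.Y806.NG

open Complex Pool.Agent.Results.MP_19f4d1_co.CyclicOrderFour MeasureTheory

section
variable {G : Type} [Group G] [Fintype G] (z : G)

/-- The vertices of the boundary cycle. -/
def pt (n : ℤ) : Fin 3 × G := (if n % 2 = 0 then 0 else 1, z ^ (n / 2))

omit [Fintype G] in
theorem pt_add (n k : ℤ) : pt z (n + 2 * k) = ((pt z n).1, z ^ k * (pt z n).2) := by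
  unfold pt
  have h1 : (n + 2 * k) % 2 = n % 2 := by omega
  have h2 : (n + 2 * k) / 2 = k + n / 2 := by omega
  rw [h1, h2, zpow_add]

omit [Fintype G] in
theorem pt_adj {n m : ℤ} (h : |n - m| ≤ 1) (h1 : (pt z n).1 = (pt z m).1) : n = m := by
  unfold pt at h1
  simp only at h1
  have h2 := abs_le.1 h
  split_ifs at h1 with h3 h4 h4
  · omega
  · exact absurd h1 (by decide)
  · exact absurd h1 (by decide)
  · omega

omit [Fintype G] in
theorem pt_ne (n : ℤ) : (pt z n).1 ≠ 2 := by
  unfold pt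
  simp only
  split_ifs
  · decide
  · decide

omit [Fintype G] in
theorem pt_mem (n : ℤ) : (pt z n).2 ∈ Subgroup.zpowers z := Subgroup.zpow_mem_zpowers z _

/-- The radius. -/
noncomputable def rho (r : ℝ) : ℝ := max 0 (min 1 r)

theorem rho_nonneg (r : ℝ) : 0 ≤ rho r := le_max_left _ _

theorem rho_le (r : ℝ) : rho r ≤ 1 := max_le zero_le_one (min_le_left _ _)

theorem rho_zero : rho 0 = 0 := by simp [rho]

theorem rho_one : rho 1 = 1 := by simp [rho]

theorem rho_continuous : Continuous rho := by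
  unfold rho
  fun_prop

/-- The weights of the boundary point at `s`. -/
noncomputable def bw (s : ℝ) (q : Fin 3 × G) : ℝ :=
  mu.real {U | pt z (R (fun _ : Unit => s) U ()) = q}

theorem sum_bw (s : ℝ) : ∑ q, bw z s q = 1 :=
  sum_wgt (fun _ : Unit => s) (fun n => pt z (n ()))

omit [Fintype G] in
theorem bw_continuous (q : Fin 3 × G) : Continuous fun s => bw z s q :=
  wgt_continuous (W := ℝ) (fun s (_ : Unit) => s) (fun _ => continuous_id)
    {n : Unit → ℤ | pt z (n ()) = q}

open Classical in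
/-- The weights of the point of the disc with polar coordinates `r`, `s`. -/
noncomputable def dw (w : ℝ × ℝ) (q : Fin 3 × G) : ℝ :=
  (if q = (2, 1) then 1 - rho w.1 else 0) + rho w.1 * bw z w.2 q

omit [Fintype G] in
theorem dw_nonneg (w : ℝ × ℝ) (q : Fin 3 × G) : 0 ≤ dw z w q := by
  unfold dw
  refine add_nonneg ?_ (mul_nonneg (rho_nonneg _) measureReal_nonneg)
  split_ifs
  · linarith [rho_le w.1]
  · exact le_rfl

theorem sum_dw (w : ℝ × ℝ) : ∑ q, dw z w q = 1 := by
  classical
  unfold dw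
  rw [Finset.sum_add_distrib, ← Finset.mul_sum, sum_bw, Finset.sum_ite_eq' Finset.univ]
  simp

omit [Fintype G] in
theorem dw_supp {w : ℝ × ℝ} {q : Fin 3 × G} (h : dw z w q ≠ 0) :
    q = (2, 1) ∨ ∃ U ∈ Set.Ico (0 : ℝ) 1, pt z (R (fun _ : Unit => w.2) U ()) = q := by
  classical
  by_cases hq : q = (2, 1)
  · exact Or.inl hq
  · right
    unfold dw at h
    rw [if_neg hq, zero_add] at h
    exact exists_of_wgt (right_ne_zero_of_mul h)

omit [Fintype G] in
theorem dw_rel (w : ℝ × ℝ) (q r : Fin 3 × G) (hq : dw z w q ≠ 0) (hr : dw z w r ≠ 0) :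
    (q.1 = r.1 → q = r) ∧ q.2⁻¹ * r.2 ∈ Subgroup.zpowers z := by
  have hmem : ∀ q : Fin 3 × G, dw z w q ≠ 0 → q.2 ∈ Subgroup.zpowers z := by
    intro q hq
    rcases dw_supp z hq with rfl | ⟨U, -, rfl⟩
    · exact one_mem _
    · exact pt_mem z _
  refine ⟨fun h => ?_, mul_mem (inv_mem (hmem q hq)) (hmem r hr)⟩
  rcases dw_supp z hq with rfl | ⟨U, hU, rfl⟩
  · rcases dw_supp z hr with rfl | ⟨U', hU', rfl⟩
    · rfl
    · exact absurd h.symm (pt_ne z _)
  · rcases dw_supp z hr with rfl | ⟨U', hU', rfl⟩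
    · exact absurd h (pt_ne z _)
    · rw [pt_adj z (R_close (fun _ : Unit => w.2) hU hU' ()) h]

/-- The map from the disc. -/
noncomputable def P2 (w : ℝ × ℝ) : (K2 z).Realization :=
  letI := joinAction G 2
  mkPoint (G := G) (V := Fin 3 × G) (fun q => dw z w q) (fun q => dw_nonneg z w q) (sum_dw z w)
    (dw_rel z w)

theorem c2_P2 (w : ℝ × ℝ) (q : Fin 3 × G) : c2 (P2 z w) q = dw z w q := rfl

theorem P2_continuous : Continuous (P2 z) := by
  classical
  refine (continuous_iff_val (K2 z) _).2 fun v => ?_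
  have h : ∀ q : Fin 3 × G, Continuous fun w : ℝ × ℝ => dw z w q := by
    intro q
    unfold dw
    refine Continuous.add ?_ ((rho_continuous.comp continuous_fst).mul
      ((bw_continuous z q).comp continuous_snd))
    split_ifs
    · exact continuous_const.sub (rho_continuous.comp continuous_fst)
    · exact continuous_const
  exact h v

omit [Fintype G] in
theorem R_unit_shift (s U : ℝ) (k : ℤ) :
    R (fun _ : Unit => s + k) U () = R (fun _ : Unit => s) U () + 2 * k := by
  unfold R
  have : 2 * (s + k) + U = 2 * s + U + ((2 * k : ℤ) : ℝ) := by push_cast; ring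
  rw [this, Int.floor_add_intCast]

omit [Fintype G] in
theorem bw_shift (s : ℝ) (i : Fin 3) (b : G) : bw z (s + 1) (i, b) = bw z s (i, z⁻¹ * b) := by
  unfold bw
  congr 1
  ext U
  have e := R_unit_shift s U 1
  simp only [Int.cast_one] at e
  show pt z (R (fun _ : Unit => s + 1) U ()) = (i, b) ↔ pt z (R (fun _ : Unit => s) U ()) =
    (i, z⁻¹ * b)
  rw [e, pt_add, zpow_one]
  constructor
  · intro h
    have g1 := congrArg Prod.fst h
    have g2 := congrArg Prod.snd h
    exact Prod.ext g1 (eq_inv_mul_of_mul_eq g2)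
  · intro h
    have g1 := congrArg Prod.fst h
    have g2 := congrArg Prod.snd h
    refine Prod.ext g1 ?_
    show z * (pt z (R (fun _ : Unit => s) U ())).2 = b
    rw [g2, mul_inv_cancel_left]

omit [Fintype G] in
theorem bw_period {p : ℕ} (hz : orderOf z = p) (s : ℝ) (q : Fin 3 × G) :
    bw z (s + p) q = bw z s q := by
  unfold bw
  congr 1
  ext U
  have e := R_unit_shift s U p
  rw [Int.cast_natCast] at e
  show pt z (R (fun _ : Unit => s + p) U ()) = q ↔ pt z (R (fun _ : Unit => s) U ()) = q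
  rw [e, pt_add, zpow_natCast, ← hz, pow_orderOf_eq_one, one_mul]

theorem K2_index {p : ℕ} (hp : 2 ≤ p) (hz : orderOf z = p) : 2 ≤ ind G (K2 z).Realization := by
  have hp0 : p ≠ 0 := by omega
  apply two_le_ind_of z hz hp0
  intro F hF hF0 hFe
  obtain ⟨Φ, hΦ, hexp⟩ := exists_log (fun w : ℝ × ℝ => F (P2 z w)) (hF.comp (P2_continuous z))
    (fun w => hF0 _)
  have h1 : ∀ s : ℝ, P2 z (1, s + 1) = z • P2 z (1, s) := by
    intro s
    apply ext2
    rintro ⟨i, b⟩
    rw [c2_smul, c2_P2, c2_P2]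
    unfold dw
    simp only [rho_one, sub_self, ite_self, one_mul, zero_add]
    exact bw_shift z s i b
  have h0 : ∀ s : ℝ, P2 z (0, s) = P2 z (0, 0) := by
    intro s
    apply ext2
    intro q
    rw [c2_P2, c2_P2]
    unfold dw
    simp only [rho_zero, zero_mul]
  have hP : ∀ w : ℝ × ℝ, P2 z (w.1, w.2 + p) = P2 z w := by
    intro w
    apply ext2
    intro q
    rw [c2_P2, c2_P2]
    unfold dw
    simp only [bw_period z hz]
  obtain ⟨M, hM⟩ := const_diff (fun w : ℝ × ℝ => Φ (w.1, w.2 + p)) Φ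
    (by fun_prop) hΦ 0 (fun w => by
      show exp (Φ (w.1, w.2 + p)) = exp 0 * exp (Φ w)
      rw [hexp, hexp, exp_zero, one_mul]
      show F (P2 z (w.1, w.2 + p)) = F (P2 z w)
      rw [hP])
  obtain ⟨m, hm⟩ := const_diff (fun s : ℝ => Φ (0, s)) (fun _ : ℝ => Φ (0, 0))
    (by fun_prop) (by fun_prop) 0 (fun s => by
      show exp (Φ (0, s)) = exp 0 * exp (Φ (0, 0))
      rw [hexp, hexp, exp_zero, one_mul]
      show F (P2 z (0, s)) = F (P2 z (0, 0))
      rw [h0])
  obtain ⟨a, ha⟩ := const_diff (fun s : ℝ => Φ (1, s + 1)) (fun s : ℝ => Φ (1, s))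
    (by fun_prop) (by fun_prop) (2 * Real.pi * I / (p : ℂ)) (fun s => by
      show exp (Φ (1, s + 1)) = exp _ * exp (Φ (1, s))
      rw [hexp, hexp]
      show F (P2 z (1, s + 1)) = zt p * F (P2 z (1, s))
      rw [h1, hFe])
  have hpi := Complex.two_pi_I_ne_zero
  have m0 : (m : ℂ) = 0 := by
    have := hm 0
    have h2 : (m : ℂ) * (2 * Real.pi * I) = 0 := by linear_combination -this
    rcases mul_eq_zero.1 h2 with h | h
    · exact h
    · exact absurd h hpi
  have M0 : (M : ℂ) = 0 := by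
    have e1 := hM (0, 0)
    have e2 := hm p
    simp only [zero_add, add_zero] at e1 e2
    rw [e2, m0] at e1
    have h2 : (M : ℂ) * (2 * Real.pi * I) = 0 := by linear_combination -e1
    rcases mul_eq_zero.1 h2 with h | h
    · exact h
    · exact absurd h hpi
  have i1 := iterate_shift (Φ := fun s : ℝ => Φ (1, s)) (d := 1)
    (fun s => (ha s).trans (add_assoc _ _ _)) p 0
  have i2 := hM (1, 0)
  simp only [zero_add, add_zero, mul_one] at i1 i2
  rw [i2, M0] at i1
  have hpc : (p : ℂ) ≠ 0 := by exact_mod_cast hp0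
  have j1 : (0 : ℂ) = 1 + p * a := by
    have e1 : (0 : ℂ) * (2 * Real.pi * I) = (1 + p * a) * (2 * Real.pi * I) := by
      have := add_left_cancel i1
      rw [this]
      field_simp
    exact mul_right_cancel₀ hpi e1
  have j2 : (0 : ℤ) = 1 + p * a := by exact_mod_cast j1
  have j3 : (p : ℤ) ∣ 1 := ⟨-a, by linear_combination -j2⟩
  have := Int.le_of_dvd one_pos j3
  omega

end

end Pool.Agent.Y806.NG
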