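import Pool.Agent.Y806.NG.Cx

set_option autoImplicit false

/-! Random rounding. -/

namespace Pool.Agent.Y806.NG

open Complex Pool.Agent.Results.MP_19f4d1_co.CyclicOrderFour MeasureTheory

/-- The uniform distribution on the unit interval. -/
noncomputable def mu : Measure ℝ := volume.restrict (Set.Ico 0 1)

instance : IsProbabilityMeasure mu := ⟨by
  unfold mu
  rw [Measure.restrict_apply_univ, Real.volume_Ico]
  simp⟩

/-- The `n`-th vertex of the cycle of length `2 p`. -/
def vtx (p : ℕ) (n : ℤ) : Fin 2 × ZMod p := (if n % 2 = 0 then 0 else 1, ((n / 2 : ℤ) : ZMod p))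

theorem vtx_add (p : ℕ) (n k : ℤ) : vtx p (n + 2 * k) = ((vtx p n).1, (vtx p n).2 + k) := by
  unfold vtx
  have h1 : (n + 2 * k) % 2 = n % 2 := by omega
  have h2 : (n + 2 * k) / 2 = n / 2 + k := by omega
  rw [h1, h2]
  push_cast
  rfl

theorem vtx_adj (p : ℕ) {n m : ℤ} (h : |n - m| ≤ 1) (h1 : (vtx p n).1 = (vtx p m).1) : n = m := by
  unfold vtx at h1
  simp only at h1
  have h2 := abs_le.1 h
  split_ifs at h1 with h3 h4 h4
  · omega
  · exact absurd h1 (by decide)
  · exact absurd h1 (by decide)
  · omega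

section
variable {A : Type} [Finite A]

/-- Random rounding of `2 u`. -/
noncomputable def R (u : A → ℝ) (U : ℝ) : A → ℤ := fun a => ⌊2 * u a + U⌋

theorem R_close (u : A → ℝ) {U U' : ℝ} (h : U ∈ Set.Ico (0 : ℝ) 1) (h' : U' ∈ Set.Ico (0 : ℝ) 1)
    (a : A) : |R u U a - R u U' a| ≤ 1 := by
  unfold R
  obtain ⟨h1, h2⟩ := h
  obtain ⟨h3, h4⟩ := h'
  have a1 := Int.floor_le (2 * u a + U)
  have a2 := Int.lt_floor_add_one (2 * u a + U)
  have a3 := Int.floor_le (2 * u a + U')
  have a4 := Int.lt_floor_add_one (2 * u a + U')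
  rw [abs_le]
  constructor
  · have : ((⌊2 * u a + U'⌋ : ℤ) : ℝ) < ((⌊2 * u a + U⌋ + 2 : ℤ) : ℝ) := by
      push_cast
      linarith
    have := Int.cast_lt.1 this
    omega
  · have : ((⌊2 * u a + U⌋ : ℤ) : ℝ) < ((⌊2 * u a + U'⌋ + 2 : ℤ) : ℝ) := by
      push_cast
      linarith
    have := Int.cast_lt.1 this
    omega

theorem measurable_R (u : A → ℝ) : Measurable (R u) := by
  refine measurable_pi_lambda _ fun a => ?_
  exact Int.measurable_floor.comp (measurable_const.add measurable_id)

theorem measurableSet_R (u : A → ℝ) (S : Set (A → ℤ)) : MeasurableSet {U | R u U ∈ S} :=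
  measurable_R u (Set.to_countable S).measurableSet

theorem wgt_continuous {W : Type} [TopologicalSpace W] [FirstCountableTopology W]
    (u : W → A → ℝ) (hu : ∀ a, Continuous fun w => u w a) (S : Set (A → ℤ)) :
    Continuous fun w => mu.real {U | R (u w) U ∈ S} := by
  rw [continuous_iff_continuousAt]
  intro w0
  have e : ∀ w, mu.real {U | R (u w) U ∈ S} =
      ∫ U, Set.indicator {U | R (u w) U ∈ S} (1 : ℝ → ℝ) U ∂mu := fun w =>
    (integral_indicator_one (measurableSet_R (u w) S)).symm
  simp only [e]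
  refine continuousAt_of_dominated (bound := fun _ => 1) ?_ ?_ (integrable_const _) ?_
  · refine Filter.Eventually.of_forall fun w => ?_
    exact (measurable_const.indicator (measurableSet_R (u w) S)).aestronglyMeasurable
  · refine Filter.Eventually.of_forall fun w => Filter.Eventually.of_forall fun U => ?_
    by_cases h : U ∈ {U | R (u w) U ∈ S}
    · rw [Set.indicator_of_mem h]
      simp
    · rw [Set.indicator_of_notMem h]
      simp
  · have h1 : ∀ᵐ U ∂mu, ∀ a : A, ∀ n : ℤ, 2 * u w0 a + U ≠ n := by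
      unfold mu
      refine ae_restrict_of_ae ?_
      rw [ae_all_iff]
      intro a
      rw [ae_all_iff]
      intro n
      have : {U : ℝ | ¬ (2 * u w0 a + U ≠ n)} = {(n : ℝ) - 2 * u w0 a} := by
        ext U
        simp only [ne_eq, not_not, Set.mem_setOf_eq, Set.mem_singleton_iff]
        constructor
        · intro h; linarith
        · intro h; linarith
      rw [ae_iff, this]
      exact measure_singleton _
    filter_upwards [h1] with U hU
    have h2 : ∀ᶠ w in nhds w0, R (u w) U = R (u w0) U := by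
      have h3 : ∀ a : A, ∀ᶠ w in nhds w0, R (u w) U a = R (u w0) U a := by
        intro a
        have hc : Continuous fun w => 2 * u w a + U := (continuous_const.mul (hu a)).add
          continuous_const
        have hn : Set.Ioo ((⌊2 * u w0 a + U⌋ : ℤ) : ℝ) (⌊2 * u w0 a + U⌋ + 1) ∈
            nhds (2 * u w0 a + U) := by
          refine Ioo_mem_nhds ?_ (Int.lt_floor_add_one _)
          exact lt_of_le_of_ne (Int.floor_le _) (hU a _).symm
        filter_upwards [hc.continuousAt.eventually hn] with w hw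
        exact Int.floor_eq_iff.2 ⟨hw.1.le, hw.2⟩
      have h4 := Filter.eventually_all.2 h3
      filter_upwards [h4] with w hw
      funext a
      exact hw a
    have h5 : (fun w => Set.indicator {U | R (u w) U ∈ S} (1 : ℝ → ℝ) U) =ᶠ[nhds w0]
        fun _ => Set.indicator {U | R (u w0) U ∈ S} (1 : ℝ → ℝ) U := by
      filter_upwards [h2] with w hw
      have h6 : (U ∈ {U | R (u w) U ∈ S}) ↔ (U ∈ {U | R (u w0) U ∈ S}) := by
        show R (u w) U ∈ S ↔ R (u w0) U ∈ S
        rw [hw]
      by_cases h : U ∈ {U | R (u w) U ∈ S}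
      · rw [Set.indicator_of_mem h, Set.indicator_of_mem (h6.1 h)]
      · rw [Set.indicator_of_notMem h, Set.indicator_of_notMem (fun h' => h (h6.2 h'))]
    exact h5.continuousAt

/-- The weights of a random vertex add up to one. -/
theorem sum_wgt {X : Type} [Fintype X] (u : A → ℝ) (h : (A → ℤ) → X) :
    ∑ v, mu.real {U | h (R u U) = v} = 1 := by
  classical
  have h1 := sum_measureReal_preimage_singleton (μ := mu) (f := fun U => h (R u U)) Finset.univ
    (fun v _ => measurableSet_R u {n | h n = v})
  have h2 : (fun U => h (R u U)) ⁻¹' ((Finset.univ : Finset X) : Set X) = Set.univ := by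
    simp
  rw [h2, probReal_univ] at h1
  exact h1

theorem exists_of_wgt {S : Set ℝ} (h : mu.real S ≠ 0) : ∃ U ∈ Set.Ico (0 : ℝ) 1, U ∈ S := by
  by_contra hc
  push Not at hc
  apply h
  have h1 : mu S = 0 := by
    unfold mu
    have h2 : ∀ᵐ U ∂(volume.restrict (Set.Ico (0 : ℝ) 1)), U ∉ S :=
      (ae_restrict_mem measurableSet_Ico).mono hc
    have h3 := (ae_iff.1 h2)
    simpa using h3
  rw [Measure.real, h1]
  rfl

end

end Pool.Agent.Y806.NG
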